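import Mathlib
import Pool.Agent.U115.WN.Stm

set_option autoImplicit false

/-!
Package QDS of project WN: many nonsingular symmetric integral matrices with bounded entries.
-/

open Finset Matrix

namespace Pool.Agent.U165.WN.QDS

open Pool.Agent.U115.WN

/-- diagonally dominant symmetric matrices are nonsingular -/
theorem det_ne {k q t : ℕ} (ht : 2 * k * t ≤ q) (hq : 1 ≤ q)
    (c : {p : Fin k × Fin k // p.1 ≤ p.2} → ℤ)
    (h1 : ∀ α, α.1.1 = α.1.2 → (q : ℤ) - t ≤ c α)
    (h2 : ∀ α, α.1.1 ≠ α.1.2 → 0 ≤ c α ∧ c α ≤ t) : (symM c).det ≠ 0 := by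
  have hR : ((symM c).map (Int.cast : ℤ → ℝ)).det ≠ 0 := by
    apply det_ne_zero_of_sum_row_lt_diag
    intro i
    have hd : (q : ℝ) - t ≤ ‖((symM c).map (Int.cast : ℤ → ℝ)) i i‖ := by
      have h := h1 ⟨(min i i, max i i), min_le_max⟩ (by simp)
      rw [Matrix.map_apply, Real.norm_eq_abs]
      refine le_trans ?_ (le_abs_self _)
      unfold symM
      rw [Matrix.of_apply]
      exact_mod_cast h
    have hs : ∑ j ∈ univ.erase i, ‖((symM c).map (Int.cast : ℤ → ℝ)) i j‖ ≤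
        ∑ j ∈ univ.erase i, (t : ℝ) := by
      apply sum_le_sum
      intro j hj
      have hji : j ≠ i := ne_of_mem_erase hj
      have h := h2 ⟨(min i j, max i j), min_le_max⟩ (min_lt_max.2 hji.symm).ne
      rw [Matrix.map_apply, Real.norm_eq_abs]
      unfold symM
      rw [Matrix.of_apply, abs_of_nonneg (by exact_mod_cast h.1)]
      exact_mod_cast h.2
    have hk : 1 ≤ k := by
      have := i.isLt
      omega
    rw [sum_const, card_erase_of_mem (mem_univ i), card_univ, Fintype.card_fin, nsmul_eq_mul,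
      Nat.cast_sub hk, Nat.cast_one] at hs
    have h3 : 2 * (k : ℝ) * t ≤ q := by exact_mod_cast ht
    have h4 : (1 : ℝ) ≤ q := by exact_mod_cast hq
    refine lt_of_le_of_lt hs (lt_of_lt_of_le ?_ hd)
    nlinarith
  intro h0
  apply hR
  have h5 := (Int.castRingHom ℝ).map_det (symM c)
  rw [h0, map_zero] at h5
  rw [show (symM c).map (Int.cast : ℤ → ℝ) = (Int.castRingHom ℝ).mapMatrix (symM c) from rfl, ← h5]

theorem t_QDS : S_QDS := by
  intro k hk
  classical
  set r : ℕ := Fintype.card {p : Fin k × Fin k // p.1 ≤ p.2} with hr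
  have hk0 : (0 : ℝ) < k := by exact_mod_cast hk
  refine ⟨(1 / (2 * (k : ℝ))) ^ r, by positivity, ?_⟩
  intro q hq
  obtain ⟨t, ht1, ht2, htq⟩ : ∃ t : ℕ, 2 * k * t ≤ q ∧ q < 2 * k * (t + 1) ∧ t ≤ q :=
    ⟨q / (2 * k), Nat.mul_div_le q (2 * k), Nat.lt_mul_div_succ q (show 0 < 2 * k by omega),
      Nat.div_le_self _ _⟩
  set S : Set ({p : Fin k × Fin k // p.1 ≤ p.2} → ℤ) := {c | (symM c).det ≠ 0 ∧ ∀ α, |c α| ≤ q} with hS
  have hfin : S.Finite := by
    refine (Set.finite_Icc (fun _ : {p : Fin k × Fin k // p.1 ≤ p.2} => (-(q : ℤ)))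
      (fun _ => (q : ℤ))).subset ?_
    rintro c ⟨-, hc⟩
    exact ⟨fun α => (abs_le.1 (hc α)).1, fun α => (abs_le.1 (hc α)).2⟩
  set F : Finset ({p : Fin k × Fin k // p.1 ≤ p.2} → ℤ) :=
    Fintype.piFinset (fun α => if α.1.1 = α.1.2 then Icc ((q : ℤ) - t) q else Icc 0 (t : ℤ)) with hF
  have hcard : F.card = (t + 1) ^ r := by
    rw [hF, Fintype.card_piFinset, prod_congr rfl (g := fun _ => t + 1), prod_const, card_univ]
    intro α _
    split_ifs
    · rw [Int.card_Icc]
      omega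
    · rw [Int.card_Icc]
      omega
  have hsub : (F : Set ({p : Fin k × Fin k // p.1 ≤ p.2} → ℤ)) ⊆ S := by
    intro c hc
    rw [mem_coe, hF, Fintype.mem_piFinset] at hc
    have hc1 : ∀ α, α.1.1 = α.1.2 → (q : ℤ) - t ≤ c α ∧ c α ≤ q := by
      intro α hα
      have := hc α
      rwa [if_pos hα, mem_Icc] at this
    have hc2 : ∀ α, α.1.1 ≠ α.1.2 → 0 ≤ c α ∧ c α ≤ t := by
      intro α hα
      have := hc α
      rwa [if_neg hα, mem_Icc] at this
    refine ⟨det_ne ht1 hq c (fun α hα => (hc1 α hα).1) hc2, ?_⟩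
    intro α
    rw [abs_le]
    by_cases hα : α.1.1 = α.1.2
    · have := hc1 α hα
      constructor <;> omega
    · have := hc2 α hα
      constructor <;> omega
  have h1 : F.card ≤ S.ncard := by
    rw [← Set.ncard_coe_finset]
    exact Set.ncard_le_ncard hsub hfin
  have h2 : (((t + 1) ^ r : ℕ) : ℝ) ≤ S.ncard := by
    rw [← hcard]
    exact_mod_cast h1
  refine le_trans ?_ h2
  rw [← mul_pow]
  push_cast
  apply pow_le_pow_left₀ (by positivity)
  rw [one_div, inv_mul_le_iff₀ (by positivity)]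
  have h3 : (q : ℝ) < 2 * (k : ℝ) * ((t : ℝ) + 1) := by exact_mod_cast ht2
  exact h3.le

end Pool.Agent.U165.WN.QDS
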